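import Pool.Agent.Helper10.RC.Basic

/-!
# MP_b55b7c_an, packet RC-Two: below a nonzero projection there are two nonzero orthogonal
equivalent projections when there is no abelian projection.
-/

open scoped ENNReal NNReal InnerProductSpace ComplexOrder
open Filter Topology

attribute [-instance] CStarMatrix.instAlgebra CStarMatrix.instModule CStarMatrix.instSMul
  CStarMatrix.instMulAction CStarMatrix.instDistribMulAction

set_option linter.unusedSectionVars false

noncomputable section
namespace RC
universe u

section
variable {H : Type u} [NormedAddCommGroup H] [InnerProductSpace ℂ H] [CompleteSpace H]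

private theorem cen_mul {S : Set (H →L[ℂ] H)} {x y : H →L[ℂ] H} (hx : x ∈ S.centralizer)
    (hy : y ∈ S.centralizer) : x * y ∈ S.centralizer := Set.mul_mem_centralizer hx hy

private theorem cen_star {S : Set (H →L[ℂ] H)} (hS : ∀ x ∈ S, star x ∈ S) {x : H →L[ℂ] H}
    (hx : x ∈ S.centralizer) : star x ∈ S.centralizer := by
  rw [Set.mem_centralizer_iff] at hx ⊢
  intro m hm
  have h := hx (star m) (hS m hm)
  have h' := congrArg star h
  simpa [star_mul] using h'.symm

private theorem cen_cfc {S : Set (H →L[ℂ] H)} {x : H →L[ℂ] H} (hx : x ∈ S.centralizer)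
    (g : ℝ → ℝ) : cfc g x ∈ S.centralizer := by
  rw [Set.mem_centralizer_iff] at hx ⊢
  intro m hm
  have h : Commute x m := (hx m hm).symm
  exact (h.cfc_real g).eq.symm

end

theorem twoP (h1 : NcP.{u}) (h2 : PolarP.{u}) : TwoP.{u} := by
  intro H _ _ _ S hS hN f hf hfp hf0
  obtain ⟨x', hx', y', hy', hne⟩ := hN f hf hfp hf0
  have hff : f * f = f := hfp.isIdempotentElem
  have hfs : star f = f := hfp.isSelfAdjoint
  -- the compressed elements
  have key : ∃ X ∈ S.centralizer, ∃ Y ∈ S.centralizer, IsSelfAdjoint X ∧ X * Y ≠ Y * X ∧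
      f * X = X ∧ X * f = X ∧ f * Y = Y ∧ Y * f = Y := by
    set X0 : H →L[ℂ] H := f * x' * f with hX0
    set Y0 : H →L[ℂ] H := f * y' * f with hY0
    have hX0m : X0 ∈ S.centralizer := cen_mul (cen_mul hf hx') hf
    have hY0m : Y0 ∈ S.centralizer := cen_mul (cen_mul hf hy') hf
    have hfX : f * X0 = X0 := by rw [hX0, ← mul_assoc, ← mul_assoc, hff]
    have hXf : X0 * f = X0 := by rw [hX0, mul_assoc, hff]
    have hfY : f * Y0 = Y0 := by rw [hY0, ← mul_assoc, ← mul_assoc, hff]
    have hYf : Y0 * f = Y0 := by rw [hY0, mul_assoc, hff]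
    have hne' : X0 * Y0 ≠ Y0 * X0 := by
      intro h
      apply hne
      have e1 : X0 * Y0 = f * x' * f * y' * f := by
        calc X0 * Y0 = f * x' * (f * f) * y' * f := by simp only [hX0, hY0, mul_assoc]
          _ = _ := by rw [hff]
      have e2 : Y0 * X0 = f * y' * f * x' * f := by
        calc Y0 * X0 = f * y' * (f * f) * x' * f := by simp only [hX0, hY0, mul_assoc]
          _ = _ := by rw [hff]
      rw [← e1, ← e2, h]
    have hfX' : f * star X0 = star X0 := by
      have := congrArg star hXf
      rwa [star_mul, hfs] at this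
    have hXf' : star X0 * f = star X0 := by
      have := congrArg star hfX
      rwa [star_mul, hfs] at this
    have hsX : star X0 ∈ S.centralizer := cen_star hS hX0m
    by_cases hc : (X0 + star X0) * Y0 = Y0 * (X0 + star X0)
    · refine ⟨Complex.I • (X0 - star X0), ?_, Y0, hY0m, ?_, ?_, ?_, ?_, hfY, hYf⟩
      · rw [Set.mem_centralizer_iff] at hX0m hsX ⊢
        intro m hm
        rw [mul_smul_comm, smul_mul_assoc, mul_sub, sub_mul, hX0m m hm, hsX m hm]
      · rw [isSelfAdjoint_iff, star_smul, star_sub, star_star]
        simp only [RCLike.star_def, Complex.conj_I, neg_smul]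
        rw [← smul_neg, neg_sub]
      · intro h
        apply hne'
        rw [mul_smul_comm, smul_mul_assoc] at h
        have h' : (X0 - star X0) * Y0 = Y0 * (X0 - star X0) :=
          smul_right_injective _ Complex.I_ne_zero h
        have h2 : (2 : ℂ) • (X0 * Y0) = (2 : ℂ) • (Y0 * X0) := by
          rw [two_smul, two_smul]
          rw [add_mul, mul_add] at hc
          rw [sub_mul, mul_sub] at h'
          have := congrArg₂ (fun a b => a + b) hc h'
          calc X0 * Y0 + X0 * Y0 = X0 * Y0 + star X0 * Y0 + (X0 * Y0 - star X0 * Y0) := by abel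
            _ = Y0 * X0 + Y0 * star X0 + (Y0 * X0 - Y0 * star X0) := this
            _ = Y0 * X0 + Y0 * X0 := by abel
        exact smul_right_injective _ (two_ne_zero) h2
      · rw [mul_smul_comm, mul_sub, hfX, hfX']
      · rw [smul_mul_assoc, sub_mul, hXf, hXf']
    · refine ⟨X0 + star X0, ?_, Y0, hY0m, ?_, hc, ?_, ?_, hfY, hYf⟩
      · rw [Set.mem_centralizer_iff] at hX0m hsX ⊢
        intro m hm
        rw [mul_add, add_mul, hX0m m hm, hsX m hm]
      · rw [isSelfAdjoint_iff, star_add, star_star, add_comm]
      · rw [mul_add, hfX, hfX']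
      · rw [add_mul, hXf, hXf']
  obtain ⟨X, hX, Y, hY, hXs, hXY, hfX, hXf, hfY, hYf⟩ := key
  obtain ⟨g, h, hgc, hhc, hg0, hh0, hgh, hT0⟩ := h1 (H →L[ℂ] H) X Y hXs hXY
  set T : H →L[ℂ] H := cfc g X * Y * cfc h X with hT
  have hfcom : Commute X f := by rw [Commute, SemiconjBy, hXf, hfX]
  have hg : Commute (cfc g X) f := hfcom.cfc_real g
  have hh : Commute (cfc h X) f := hfcom.cfc_real h
  have hTm : T ∈ S.centralizer := cen_mul (cen_mul (cen_cfc hX g) hY) (cen_cfc hX h)
  have hfT : f * T = T := by
    rw [hT, ← mul_assoc, ← mul_assoc, ← hg.eq, mul_assoc (cfc g X) f Y, hfY]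
  have hTf : T * f = T := by
    rw [hT, mul_assoc, hh.eq, ← mul_assoc, mul_assoc _ Y f, hYf]
  have hhg : cfc h X * cfc g X = 0 := by
    rw [← cfc_mul h g X hhc.continuousOn hgc.continuousOn]
    have : (fun x => h x * g x) = fun _ => (0 : ℝ) := by
      funext t
      rw [mul_comm, hgh]
    rw [this, cfc_const_zero]
  have hTT : T * T = 0 := by
    calc T * T = cfc g X * Y * (cfc h X * cfc g X) * Y * cfc h X := by
          simp only [hT, mul_assoc]
      _ = 0 := by rw [hhg]; simp
  obtain ⟨w, hw, hw1, hw2, hw3, hw4, hw5, hw6⟩ := h2 H S hS T hTm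
  -- w w* w = w
  have hp : star w * w * (star w * w) = star w * w := hw2.isIdempotentElem
  have hww : w * (star w * w) = w := by
    have h0 : star (w * (star w * w) - w) * (w * (star w * w) - w) = 0 := by
      have hs : star (w * (star w * w) - w) = star w * w * star w - star w := by
        simp [star_sub, star_mul, mul_assoc]
      rw [hs]
      have e1 : (star w * w * star w - star w) * (w * (star w * w) - w)
          = (star w * w * (star w * w)) * (star w * w) - star w * w * (star w * w)
            - star w * w * (star w * w) + star w * w := by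
        simp only [mul_sub, sub_mul, mul_assoc]
        abel
      rw [e1, hp, hp]
      abel
    have h1' : w * (star w * w) - w = 0 := by
      exact CStarRing.star_mul_self_eq_zero_iff _ |>.mp h0
    exact sub_eq_zero.mp h1'
  have hww' : w * star w * w = w := by rw [mul_assoc, hww]
  refine ⟨w, hw, hw2, ?_, ?_, ?_, ?_⟩
  · rintro rfl
    apply hT0
    rw [← hw3]
    simp
  · -- f w = w
    have e : (1 - f) * T = 0 := by rw [sub_mul, one_mul, hfT, sub_self]
    have e2 := hw5 _ e
    have e3 : (1 - f) * w = 0 := by
      calc (1 - f) * w = (1 - f) * (w * star w) * w := by rw [mul_assoc, hww']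
        _ = 0 := by rw [e2, zero_mul]
    rw [sub_mul, one_mul, sub_eq_zero] at e3
    exact e3.symm
  · have e : T * (1 - f) = 0 := by rw [mul_sub, mul_one, hTf, sub_self]
    have e2 := hw6 _ e
    have e3 : w * (1 - f) = 0 := by
      calc w * (1 - f) = w * (star w * w * (1 - f)) := by
            rw [← mul_assoc w (star w * w) (1 - f), hww]
        _ = 0 := by rw [e2, mul_zero]
    rw [mul_sub, mul_one, sub_eq_zero] at e3
    exact e3.symm
  · have e2 := hw6 _ hTT
    have e3 := hw5 _ e2
    calc w * w = w * (star w * w * (w * star w)) * w := by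
          have : w * (star w * w * (w * star w)) * w = (w * (star w * w)) * (w * star w * w) := by
            simp only [mul_assoc]
          rw [this, hww, hww']
      _ = 0 := by rw [e3, mul_zero, zero_mul]

end RC
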